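import Mathlib
import Pool.Agent.Q174.Sol

/-!
# Negative solutions of a planar equation with a point source need not be radial

The hypotheses (H1)-(H8) on `f(t) = e^{2t} p(e^t)` and `g(u) = q(e^u)` do not force negative
solutions of `Δu + p(|x|) q(e^u) = 4πN δ` to be radially symmetric: for one fixed `q`, every real
`N ≥ 0` and every integer `κ > N`, with `p(r) = r^{2(κ-1-N)}`, there is a negative solution that is
not radial. For a positive integer `N` and `κ = N + 1` the coefficient is `p ≡ 1`.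
-/

set_option autoImplicit false

open MeasureTheory Laplacian InnerProductSpace Filter Topology Set
open scoped ContDiff

namespace Pool.Agent.Results.MP_ad2fa1_an.NonradialNegative

/-- `f(t) = e^{2t} p(e^t)`. -/
noncomputable def fFun (p : ℝ → ℝ) (t : ℝ) : ℝ := Real.exp (2 * t) * p (Real.exp t)

/-- `g(u) = q(e^u)`. -/
noncomputable def gFun (q : ℝ → ℝ) (u : ℝ) : ℝ := q (Real.exp u)

/-- (H1): `f, g ∈ C¹(ℝ)`, `∫_{-∞}^0 |t f(t)| dt < ∞`, `sup (|g| + |g'|) < ∞`. -/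
def H1 (f g : ℝ → ℝ) : Prop :=
  ContDiff ℝ 1 f ∧ ContDiff ℝ 1 g ∧ IntegrableOn (fun t => |t * f t|) (Iic 0) ∧
    ∃ C : ℝ, ∀ u, |g u| + |deriv g u| ≤ C

/-- (H2): `f > 0`, `f → ∞` at `∞`, `g(0) = 0`, `g > 0` on `(-∞, 0)`. -/
def H2 (f g : ℝ → ℝ) : Prop :=
  (∀ t, 0 < f t) ∧ Tendsto f atTop atTop ∧ g 0 = 0 ∧ ∀ u, u < 0 → 0 < g u

/-- (H3): `f' ≥ 0`. -/
def H3 (f : ℝ → ℝ) : Prop := ∀ t, 0 ≤ deriv f t

/-- `∫_0^∞ f(t) g(-Mt) dt < ∞`. -/
def FiniteAt (f g : ℝ → ℝ) (M : ℝ) : Prop := IntegrableOn (fun t => f t * g (-M * t)) (Ioi 0)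

/-- (H4): for some `M > 0`, `g' > 0` on `(-∞, -M)` and `∫_0^∞ f(t) g(-Mt) dt < ∞`. -/
def H4 (f g : ℝ → ℝ) : Prop := ∃ M : ℝ, 0 < M ∧ (∀ u, u < -M → 0 < deriv g u) ∧ FiniteAt f g M

/-- `M₀ = inf {M > 0 : ∫_0^∞ f(t) g(-Mt) dt < ∞}`. -/
noncomputable def M0 (f g : ℝ → ℝ) : ℝ := sInf {M : ℝ | 0 < M ∧ FiniteAt f g M}

/-- (H5): `∫_0^∞ f(t) g(-M₀t) dt = ∞` and `inf_{t>0} f(t-c)/f(t) > 0` for every `c > 0`. -/
def H5 (f g : ℝ → ℝ) : Prop :=
  ¬ FiniteAt f g (M0 f g) ∧ ∀ c : ℝ, 0 < c → ∃ δ : ℝ, 0 < δ ∧ ∀ t, 0 < t → δ ≤ f (t - c) / f t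

/-- `F₁ = f'/f`. -/
noncomputable def F1 (f : ℝ → ℝ) (t : ℝ) : ℝ := deriv f t / f t

/-- `G₁(u) = (∫_{-∞}^u g) / g(u)`. -/
noncomputable def G1 (g : ℝ → ℝ) (u : ℝ) : ℝ := (∫ s in Iic u, g s) / g u

/-- (H6): `G₀` is defined, and `F₁ → f₁` at `∞`, `G₁ → g₁` at `-∞`. -/
def H6 (f g : ℝ → ℝ) (f1 g1 : ℝ) : Prop :=
  (∀ u, IntegrableOn g (Iic u)) ∧ Tendsto (F1 f) atTop (𝓝 f1) ∧ Tendsto (G1 g) atBot (𝓝 g1)

/-- (H7): `F₁ ≥ f₁` on `ℝ` and `G₁ ≥ g₁` on `(-∞, 0)`. -/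
def H7 (f g : ℝ → ℝ) (f1 g1 : ℝ) : Prop := (∀ t, f1 ≤ F1 f t) ∧ ∀ u, u < 0 → g1 ≤ G1 g u

/-- (H8): for some `δ > 0`, `g' ≤ 0` on `[-δ, 0]`. -/
def H8 (g : ℝ → ℝ) : Prop := ∃ δ : ℝ, 0 < δ ∧ ∀ u ∈ Icc (-δ) 0, deriv g u ≤ 0

/-- The hypotheses (H1)-(H8) for `f(t) = e^{2t} p(e^t)` and `g(u) = q(e^u)`. -/
def Hypotheses (p q : ℝ → ℝ) : Prop :=
  H1 (fFun p) (gFun q) ∧ H2 (fFun p) (gFun q) ∧ H3 (fFun p) ∧ H4 (fFun p) (gFun q) ∧
    H5 (fFun p) (gFun q) ∧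
    (∃ f1 g1 : ℝ, H6 (fFun p) (gFun q) f1 g1 ∧ H7 (fFun p) (gFun q) f1 g1) ∧ H8 (gFun q)

/-- `u` is a solution of `Δu + p(|x|) q(e^u) = 4πN δ` on the plane in the sense of distributions,
smooth off the origin. -/
def IsSolution (N : ℝ) (p q : ℝ → ℝ) (u : ℂ → ℝ) : Prop :=
  LocallyIntegrable u ∧ LocallyIntegrable (fun z : ℂ => p ‖z‖ * q (Real.exp (u z))) ∧
  ContDiffOn ℝ ∞ u {0}ᶜ ∧
  ∀ φ : ℂ → ℝ, ContDiff ℝ ∞ φ → HasCompactSupport φ →
    (∫ z, u z * Δ φ z) + ∫ z, p ‖z‖ * q (Real.exp (u z)) * φ z = 4 * Real.pi * N * φ 0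

open Pool.Agent.Q174

/-- The function `q`. -/
noncomputable def q0 (s : ℝ) : ℝ := GF.g (Real.log s)

lemma gFun_q0 : gFun q0 = GF.g := by
  funext u; simp [gFun, q0]

lemma fFun_pow (N : ℝ) (κ : ℕ) :
    fFun (fun r => r ^ (2 * ((κ : ℝ) - 1 - N))) = fun t => Real.exp (2 * ((κ : ℝ) - N) * t) := by
  funext t
  simp only [fFun]
  rw [← Real.exp_mul, ← Real.exp_add]
  congr 1
  ring

lemma hasDerivAt_exp_mul (a t : ℝ) :
    HasDerivAt (fun t : ℝ => Real.exp (a * t)) (a * Real.exp (a * t)) t := by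
  have := ((hasDerivAt_id t).const_mul a).exp
  simp only [id, mul_one] at this
  rw [mul_comm] at this
  exact this

lemma hyp {a : ℝ} (ha : 0 < a) {f : ℝ → ℝ} (hf : f = fun t => Real.exp (a * t)) :
    H1 f GF.g ∧ H2 f GF.g ∧ H3 f ∧ H4 f GF.g ∧ H5 f GF.g ∧
    (∃ f1 g1 : ℝ, H6 f GF.g f1 g1 ∧ H7 f GF.g f1 g1) ∧ H8 GF.g := by
  have hd : ∀ t, deriv f t = a * f t := by
    intro t; rw [hf]; exact (hasDerivAt_exp_mul a t).deriv
  have hpos : ∀ t, 0 < f t := by intro t; rw [hf]; exact Real.exp_pos _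
  have hfin : ∀ M, 0 < M → (FiniteAt f GF.g M ↔ a < M) := by
    intro M hM; rw [FiniteAt, hf]; exact GF.integrable_iff hM
  have hset : {M : ℝ | 0 < M ∧ FiniteAt f GF.g M} = Ioi a := by
    ext M
    simp only [mem_ofPred_eq, mem_Ioi]
    constructor
    · rintro ⟨h1, h2⟩; exact (hfin M h1).1 h2
    · intro h; exact ⟨ha.trans h, (hfin M (ha.trans h)).2 h⟩
  have hF1 : ∀ t, F1 f t = a := by
    intro t; rw [F1, hd, mul_div_assoc, div_self (hpos t).ne', mul_one]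
  refine ⟨⟨?_, GF.contDiff_g, ?_, 64, fun u => ?_⟩, ⟨hpos, ?_, GF.g_zero, fun u hu => GF.g_pos hu⟩,
    fun t => ?_, ⟨max 1 (a + 1), by positivity, fun u hu => ?_, ?_⟩, ⟨?_, fun c _ => ?_⟩,
    ⟨a, 1, ⟨fun u => GF.integrableOn_g u, ?_, ?_⟩, fun t => ?_, fun u hu => ?_⟩,
    1 / 2, by norm_num, fun u hu => ?_⟩
  · rw [hf]; fun_prop
  · have h1 : IntegrableOn (fun t : ℝ => (2 / a) * Real.exp (a / 2 * t)) (Iic 0) :=
      (integrableOn_exp_mul_Iic (by positivity) 0).const_mul _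
    refine Integrable.mono' h1 ?_ ?_
    · rw [hf]
      exact Continuous.aestronglyMeasurable (by fun_prop)
    · refine (ae_restrict_iff' measurableSet_Iic).2 (Eventually.of_forall fun t ht => ?_)
      have ht0 : t ≤ 0 := ht
      rw [Real.norm_eq_abs, abs_abs, abs_mul, abs_of_pos (hpos t), abs_of_nonpos ht0, hf]
      have e1 : Real.exp (a * t) = Real.exp (a / 2 * t) * Real.exp (a / 2 * t) := by
        rw [← Real.exp_add]; congr 1; ring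
      have e2 : -(a / 2 * t) ≤ Real.exp (-(a / 2 * t)) := by
        have := Real.add_one_le_exp (-(a / 2 * t)); linarith
      have e3 : -(a / 2 * t) * Real.exp (a / 2 * t) ≤ 1 := by
        calc -(a / 2 * t) * Real.exp (a / 2 * t) ≤
              Real.exp (-(a / 2 * t)) * Real.exp (a / 2 * t) :=
              mul_le_mul_of_nonneg_right e2 (Real.exp_pos _).le
          _ = 1 := by rw [← Real.exp_add]; simp
      have e4 : -t * Real.exp (a / 2 * t) ≤ 2 / a := by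
        rw [le_div_iff₀ ha]
        linarith
      simp only
      rw [e1, ← mul_assoc]
      exact mul_le_mul_of_nonneg_right e4 (Real.exp_pos _).le
  · rw [GF.deriv_g]; exact GF.bound u
  · rw [hf]
    exact Real.tendsto_exp_atTop.comp (tendsto_id.const_mul_atTop ha)
  · rw [hd]; exact (mul_pos ha (hpos t)).le
  · have h1 : u ≤ -1 := by have := le_max_left 1 (a + 1); linarith
    rw [GF.deriv_g, GF.g'_of_le h1]
    exact Real.exp_pos _
  · rw [hfin _ (by positivity)]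
    have := le_max_right 1 (a + 1)
    linarith
  · rw [M0, hset, csInf_Ioi, hfin a ha]
    exact lt_irrefl a
  · refine ⟨Real.exp (-(a * c)), Real.exp_pos _, fun t _ => ?_⟩
    rw [hf]
    simp only
    rw [← Real.exp_sub]
    apply Real.exp_le_exp.2
    linarith
  · rw [show F1 f = fun _ => a from funext hF1]
    exact tendsto_const_nhds
  · have h1 : G1 GF.g =ᶠ[atBot] fun _ => 1 := by
      filter_upwards [eventually_le_atBot (-1 : ℝ)] with u hu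
      rw [G1, GF.G0_of_le hu, GF.g_of_le hu, div_self (Real.exp_pos u).ne']
    exact tendsto_const_nhds.congr' h1.symm
  · rw [hF1]
  · rw [G1, le_div_iff₀ (GF.g_pos hu), one_mul]
    exact GF.g_le_G0 hu
  · rw [GF.deriv_g]
    exact GF.g'_nonpos hu.1 hu.2

/-- **Theorem.** There is one `q` such that for every real `N ≥ 0` and every integer `κ > N`, with
`p(r) = r^{2(κ-1-N)}`, all of (H1)-(H8) hold and the equation `Δu + p(|x|) q(e^u) = 4πN δ` has a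
negative solution which is not radially symmetric about the origin. -/
theorem result : ∃ q : ℝ → ℝ, ∀ (N : ℝ) (κ : ℕ), 0 ≤ N → N < κ →
    Hypotheses (fun r => r ^ (2 * ((κ : ℝ) - 1 - N))) q ∧
    ∃ u : ℂ → ℝ, IsSolution N (fun r => r ^ (2 * ((κ : ℝ) - 1 - N))) q u ∧
      (∀ z, z ≠ 0 → u z < 0) ∧ ¬ ∃ ψ : ℝ → ℝ, ∀ z, z ≠ 0 → u z = ψ ‖z‖ := by
  refine ⟨q0, fun N κ hN hκ => ⟨?_, ?_⟩⟩
  · have := hyp (a := 2 * ((κ : ℝ) - N)) (by linarith) (fFun_pow N κ)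
    unfold Hypotheses
    rw [gFun_q0]
    exact this
  · obtain ⟨μ, hμ, hμ2⟩ := Sol.exists_mu hN hκ
    have hκ0 : κ ≠ 0 := by
      rintro rfl
      simp at hκ
      linarith
    refine ⟨Sol.u N κ μ, ⟨Sol.locInt_u N κ μ, ?_, Sol.contDiffOn_u N κ μ, fun φ hφ hc => ?_⟩,
      fun z hz => ?_, Sol.not_radial hκ0 hμ⟩
    · have h1 := (Sol.continuous_src κ μ).locallyIntegrable (μ := (volume : Measure ℂ))
      refine h1.congr ?_
      filter_upwards [Sol.ae_ne_zero] with z hz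
      exact (Sol.source hN hκ hμ hμ2 hz).symm
    · exact Sol.weak hN hκ hμ hμ2 (by exact_mod_cast contDiff_infty.1 hφ 2) hc
    · have := Sol.u_le hN hκ hμ hμ2 hz
      linarith

end Pool.Agent.Results.MP_ad2fa1_an.NonradialNegative
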